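import Pool.Agent.Lib.MP_14aec4_an.UWP

namespace Pool.Agent.Results.MP_14aec4_an.Classification

open Set Pool.Agent.Lib.MP_14aec4_an

/-- Well-posedness of the KdV initial-boundary value problem on `(0, L)` in `H^s(0, L)`, `s ≤ -1`.
Here `k : Fin 4` stands for the boundary operator `B_{k+1}`. In the restriction spaces of the
problem (windows `(0, L)` and `(0, ∞)`) it is locally well-posed exactly for `s = -1` and `B_1`.
If the boundary data are extended by zero to negative times and the initial datum is extended by
zero across the ends where `u_xx` is prescribed, it is locally well-posed exactly for `s = -1`,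
for all four boundary operators. In the well-posed cases the time of existence depends only on
the norm of the data and the data-to-solution map is Lipschitz on bounded sets
(`UniformlyWellPosed`). In all other cases the map from initial data to smooth solutions with
zero boundary data is already discontinuous at the origin (`StableAtZero` fails). -/
theorem result (L T s : ℝ) (hL : 0 < L) (hT : 0 < T) (hs : s ≤ -1) (k : Fin 4)
    (a b : ℕ → ℕ → ℝ) :
    List.TFAE [UniformlyWellPosed (Ioo 0 L) (Ioi 0) s L T a b k,
      WellPosed (Ioo 0 L) (Ioi 0) s L T a b k, StableAtZero (Ioo 0 L) s L T a b k,
      s = -1 ∧ k = 0] ∧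
    List.TFAE [UniformlyWellPosed (win L k) univ s L T a b k,
      WellPosed (win L k) univ s L T a b k, StableAtZero (win L k) s L T a b k, s = -1] :=
  W.classification_uniform L T s hL hT hs k a b

end Pool.Agent.Results.MP_14aec4_an.Classification
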